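import Pool.Agent.Hhelper93.KCyl.Split

/-!
# Closed chains of lifted points

`x, y : E → ℝ` are coordinates of the points of `E`; the lifts of `e` are the points
`(x e + k P, y e + k P)`.  `Lt` is the strict order in both coordinates.  If every closed chain of
period `P` has at most `s` points then every closed chain of period `K P` has at most `s K` points,
and there is a potential.
-/

set_option autoImplicit false

namespace Pool.Agent.KCyl

variable {E : Type*} {x y : E → ℝ} {P : ℝ}

/-- The coordinate of the lift `q` of `q.1`. -/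
def lft (x : E → ℝ) (P : ℝ) (q : E × ℤ) : ℝ := x q.1 + q.2 * P

/-- Both coordinates are strictly smaller. -/
def Lt (x y : E → ℝ) (P : ℝ) (p q : E × ℤ) : Prop :=
  lft x P p < lft x P q ∧ lft y P p < lft y P q

/-- Translation by `k` periods. -/
def shf (q : E × ℤ) (k : ℤ) : E × ℤ := (q.1, q.2 + k)

theorem lft_shf (q : E × ℤ) (k : ℤ) : lft x P (shf q k) = lft x P q + k * P := by
  simp only [lft, shf]
  push_cast
  ring

theorem Lt.shift {p q : E × ℤ} (h : Lt x y P p q) (k : ℤ) : Lt x y P (shf p k) (shf q k) := by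
  unfold Lt at *
  simp only [lft_shf]
  constructor <;> linarith [h.1, h.2]

theorem shf_shf (q : E × ℤ) (k l : ℤ) : shf (shf q k) l = shf q (k + l) := by
  simp only [shf, add_assoc]

theorem shf_zero (q : E × ℤ) : shf q 0 = q := by
  simp only [shf, add_zero]

/-- A closed chain with `m` points and period `K P`, in extended form. -/
structure Per (x y : E → ℝ) (P : ℝ) (m : ℕ) (K : ℤ) (C : ℕ → E × ℤ) : Prop where
  lt : ∀ i, Lt x y P (C i) (C (i + 1))
  per : ∀ i, C (i + m) = shf (C i) K

theorem Per.monoX {m : ℕ} {K : ℤ} {C : ℕ → E × ℤ} (h : Per x y P m K C) :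
    StrictMono (fun i => lft x P (C i)) := strictMono_nat_of_lt_succ fun i => (h.lt i).1

theorem Per.monoY {m : ℕ} {K : ℤ} {C : ℕ → E × ℤ} (h : Per x y P m K C) :
    StrictMono (fun i => lft y P (C i)) := strictMono_nat_of_lt_succ fun i => (h.lt i).2

theorem Per.pos {m : ℕ} {K : ℤ} {C : ℕ → E × ℤ} (h : Per x y P m K C) (hm : 0 < m)
    (hP : 0 < P) : 0 < K := by
  have h1 : lft x P (C 0) < lft x P (C (0 + m)) := h.monoX (by omega)
  rw [h.per, lft_shf] at h1
  have h2 : (0 : ℝ) < K * P := by linarith
  have h3 : (0 : ℝ) < K := by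
    by_contra h4
    have := mul_nonpos_of_nonpos_of_nonneg (not_lt.1 h4) hP.le
    linarith
  exact_mod_cast h3

theorem mkPer {m : ℕ} (hm : 0 < m) {K : ℤ} {c : ℕ → E × ℤ}
    (h : ∀ i, i + 1 < m → Lt x y P (c i) (c (i + 1)))
    (hl : Lt x y P (c (m - 1)) (shf (c 0) K)) : ∃ C, Per x y P m K C := by
  refine ⟨fun i => shf (c (i % m)) (K * (i / m : ℕ)), ?_, ?_⟩
  · intro i
    have h0 := Nat.mod_lt i hm
    by_cases h1 : i % m + 1 < m
    · have h2 : (i + 1) % m = i % m + 1 := by
        rw [Nat.add_mod, Nat.mod_eq_of_lt (show 1 < m by omega), Nat.mod_eq_of_lt h1]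
      have h3 : (i + 1) / m = i / m := by
        have e1 := Nat.div_add_mod i m
        have e2 := Nat.div_add_mod (i + 1) m
        rw [h2] at e2
        have e3 : m * ((i + 1) / m) = m * (i / m) := by omega
        exact Nat.eq_of_mul_eq_mul_left hm e3
      simp only [h2, h3]
      exact (h _ h1).shift _
    · have h1' : i % m = m - 1 := by omega
      have e1 := Nat.div_add_mod i m
      have e0 : i + 1 = m * (i / m + 1) := by
        rw [mul_add]
        omega
      have h2 : (i + 1) % m = 0 := by
        rw [e0]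
        exact Nat.mul_mod_right _ _
      have h3 : (i + 1) / m = i / m + 1 := by
        rw [e0]
        exact Nat.mul_div_cancel_left _ hm
      simp only [h1', h2, h3]
      have h4 := hl.shift (K * (i / m : ℕ))
      rw [shf_shf] at h4
      have h5 : K + K * ((i / m : ℕ) : ℤ) = K * ((i / m + 1 : ℕ) : ℤ) := by
        push_cast
        ring
      rw [h5] at h4
      exact h4
  · intro i
    simp only [Nat.add_mod_right, Nat.add_div_right _ hm, shf_shf]
    congr 1
    push_cast
    ring

theorem per_le (hP : 0 < P) (s : ℕ) (H1 : ∀ m C, Per x y P m 1 C → 0 < m → m ≤ s) :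
    ∀ K : ℕ, ∀ m C, Per x y P m K C → 0 < m → m ≤ s * K := by
  intro K
  induction K with
  | zero =>
    intro m C h hm
    have := h.pos hm hP
    simp at this
  | succ K ih =>
    intro m C h hm
    by_cases hK : K = 0
    · subst hK
      simpa using H1 m C (by simpa using h) hm
    obtain ⟨j, i, hji, him, ⟨a1, a2⟩, b1, b2⟩ := exists_split (X := fun i => lft x P (C i))
      (Y := fun i => lft y P (C i)) (P := P) hP (m := m) (K := K + 1) (by omega) h.monoX h.monoY
      (fun i => by simp only [h.per, lft_shf]; push_cast; ring)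
      (fun i => by simp only [h.per, lft_shf]; push_cast; ring)
    have s1 : i - j ≤ s := by
      by_cases hl : i - j = 0
      · omega
      have hl' : 0 < i - j := by omega
      obtain ⟨D, hD⟩ := mkPer (x := x) (y := y) (P := P) hl' (K := 1) (c := fun n => C (j + 1 + n))
        (fun n _ => h.lt _) (by
          have e : j + 1 + (i - j - 1) = i := by omega
          simp only [e, add_zero]
          unfold Lt
          simp only [lft_shf]
          push_cast
          constructor <;> linarith)
      exact H1 _ D hD hl'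
    have s2 : m - (i - j) ≤ s * K := by
      by_cases hl : m - (i - j) = 0
      · omega
      have hl' : 0 < m - (i - j) := by omega
      obtain ⟨D, hD⟩ := mkPer (x := x) (y := y) (P := P) hl' (K := K) (c := fun n => C (i + 1 + n))
        (fun n _ => h.lt _) (by
          have e : i + 1 + (m - (i - j) - 1) = j + m := by omega
          simp only [e, add_zero]
          unfold Lt
          simp only [h.per, lft_shf]
          push_cast
          constructor <;> linarith)
      exact ih _ D hD hl'
    rw [mul_add]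
    omega

theorem per_le_int (hP : 0 < P) (s : ℕ) (H1 : ∀ m C, Per x y P m 1 C → 0 < m → m ≤ s)
    {m : ℕ} {K : ℤ} {C : ℕ → E × ℤ} (h : Per x y P m K C) (hm : 0 < m) : (m : ℤ) ≤ s * K := by
  have hK := h.pos hm hP
  obtain ⟨k, rfl⟩ := Int.eq_ofNat_of_zero_le hK.le
  exact_mod_cast per_le hP s H1 k m C h hm

/-- The potential. -/
theorem potential [Finite E] (hP : 0 < P) (s : ℕ)
    (H1 : ∀ m C, Per x y P m 1 C → 0 < m → m ≤ s) :
    ∃ ρ : E → ℤ, ∀ e f k l, Lt x y P (e, k) (f, l) → ρ e + s * k + 1 ≤ ρ f + s * l := by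
  classical
  obtain ⟨S, hS⟩ : ∃ S : ℕ, ∀ e f, Lt x y P (e, 0) (f, (S : ℤ)) := by
    obtain ⟨M, hM⟩ := (Set.finite_range (fun e => |x e| + |y e|)).bddAbove
    obtain ⟨S, hS⟩ := exists_nat_gt (2 * M / P)
    refine ⟨S, fun e f => ?_⟩
    have h1 : |x e| + |y e| ≤ M := hM ⟨e, rfl⟩
    have h2 : |x f| + |y f| ≤ M := hM ⟨f, rfl⟩
    have h3 : 2 * M < S * P := by rwa [div_lt_iff₀ hP] at hS
    unfold Lt lft
    push_cast
    have := abs_nonneg (x e)
    have := abs_nonneg (x f)
    have := abs_nonneg (y e)
    have := abs_nonneg (y f)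
    have := le_abs_self (x e)
    have := le_abs_self (y e)
    have := neg_abs_le (x f)
    have := neg_abs_le (y f)
    constructor <;> linarith
  let W : E → Set ℤ := fun f => {w | ∃ (m : ℕ) (c : ℕ → E × ℤ),
    (∀ i, i < m → Lt x y P (c i) (c (i + 1))) ∧ c m = (f, 0) ∧ w = m + s * (c 0).2}
  have hne : ∀ f, (W f).Nonempty := by
    intro f
    exact ⟨_, 0, fun _ => (f, 0), fun i hi => by omega, rfl, rfl⟩
  have hbd : ∀ f, BddAbove (W f) := by
    intro f
    refine ⟨s * S, ?_⟩
    rintro w ⟨m, c, h1, h2, rfl⟩
    obtain ⟨C, hC⟩ := mkPer (x := x) (y := y) (P := P) (m := m + 1) (by omega)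
      (K := S - (c 0).2) (c := c) (fun i hi => h1 i (by omega)) (by
        have e : m + 1 - 1 = m := by omega
        rw [e, h2]
        have e2 : shf (c 0) (S - (c 0).2) = ((c 0).1, (S : ℤ)) := by
          simp only [shf]
          congr 1
          ring
        rw [e2]
        exact hS _ _)
    have h3 := per_le_int hP s H1 hC (by omega)
    push_cast at h3
    nlinarith
  refine ⟨fun e => sSup (W e), fun e f k l hlt => ?_⟩
  obtain ⟨m, c, h1, h2, h3⟩ := Int.csSup_mem (hne e) (hbd e)
  have h4 : ((m + 1 : ℕ) : ℤ) + s * ((c 0).2 + (k - l)) ∈ W f := by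
    refine ⟨m + 1, fun i => if i ≤ m then shf (c i) (k - l) else (f, 0), ?_, ?_, ?_⟩
    · intro i hi
      by_cases h5 : i + 1 ≤ m
      · simp only [h5, show i ≤ m by omega, if_true]
        exact (h1 i (by omega)).shift _
      · have h6 : i = m := by omega
        subst h6
        simp only [le_refl, if_true, h5, if_false, h2]
        have h7 := hlt.shift (-l)
        simp only [shf] at h7 ⊢
        have e1 : k + -l = 0 + (k - l) := by ring
        have e2 : l + -l = 0 := by ring
        rw [e1, e2] at h7
        exact h7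
    · simp
    · simp [shf]
  have h5 := le_csSup (hbd f) h4
  simp only
  rw [h3]
  push_cast at h5
  linarith

end Pool.Agent.KCyl
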