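import Pool.Agent.Hhelper93.KCyl.Chain

/-!
# The classes

The potential divides `E` into `s` classes with incomparable lifts; in every class `e` is mapped to
its inner end if it is the top one in its column, and to its outer end otherwise.  This map is
injective on the class and does not take the value `out e` for the highest `e`.
-/

set_option autoImplicit false

namespace Pool.Agent.KCyl

theorem eq_zero_of_near {a b P : ℝ} (hP : 0 < P) {l : ℤ} (ha : a = l * P) (hb : |b - l * P| < P)
    (h1 : ¬ (0 < a ∧ 0 < b)) (h2 : ¬ (a < 0 ∧ b < 0)) : a = 0 := by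
  rw [abs_lt] at hb
  rcases lt_trichotomy l 0 with h | h | h
  · exfalso
    apply h2
    have h3 : (l : ℝ) ≤ -1 := by exact_mod_cast (show l ≤ -1 by omega)
    have h4 : (l : ℝ) * P ≤ -1 * P := mul_le_mul_of_nonneg_right h3 hP.le
    constructor <;> linarith [hb.1, hb.2]
  · rw [ha, h]
    simp
  · exfalso
    apply h1
    have h3 : (1 : ℝ) ≤ l := by exact_mod_cast (show 1 ≤ l by omega)
    have h4 : 1 * P ≤ (l : ℝ) * P := mul_le_mul_of_nonneg_right h3 hP.le
    constructor <;> linarith [hb.1, hb.2]

theorem classes {E V : Type*} [Fintype E] [Fintype V] {x y : E → ℝ} {P : ℝ} (hP : 0 < P) (s : ℕ)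
    (H1 : ∀ m C, Per x y P m 1 C → 0 < m → m ≤ s)
    (inn out : E → V) (hio : ∀ e f, inn e ≠ out f)
    (hin : ∀ e f, inn e = inn f → ∃ k : ℤ, x e = x f + k * P)
    (hin2 : ∀ e f, e ≠ f → ∀ k : ℤ, x e = x f + k * P → |y e - y f - k * P| < P)
    (hout : ∀ e f, out e = out f → ∃ k : ℤ, y e = y f + k * P)
    (hout2 : ∀ e f, e ≠ f → ∀ k : ℤ, y e = y f + k * P → |x e - x f - k * P| < P)
    (hne : ∀ e f, e ≠ f → ∀ k : ℤ, x e = x f + k * P → y e ≠ y f + k * P) :
    ∃ cl : E → ℕ, (∀ e, cl e < s) ∧
      (∀ e f, cl e = cl f → ∃ k : ℤ, (x e ≤ x f + k * P ∧ y f + k * P ≤ y e) ∨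
        (x f + k * P ≤ x e ∧ y e ≤ y f + k * P)) ∧
      ∀ S : Finset E, ∀ c, (∀ e ∈ S, cl e = c) → S.card ≤ Fintype.card V - 1 := by
  classical
  rcases Nat.eq_zero_or_pos s with rfl | hs
  · have he : IsEmpty E := by
      refine ⟨fun e => ?_⟩
      have h := H1 1 (fun i => (e, (i : ℤ))) ⟨fun i => by
        unfold Lt lft
        push_cast
        constructor <;> linarith, fun i => by simp [shf]⟩ (by omega)
      omega
    refine ⟨fun _ => 0, fun e => (he.false e).elim, fun e => (he.false e).elim, fun S c _ => ?_⟩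
    have : S = ∅ := Finset.eq_empty_of_forall_notMem fun e => (he.false e).elim
    simp [this]
  obtain ⟨ρ, hρ⟩ := potential hP s H1
  have hs' : (0 : ℤ) < s := by exact_mod_cast hs
  obtain ⟨κ, cl, h0, h2⟩ : ∃ (κ : E → ℤ) (cl : E → ℕ), (∀ e, ρ e + s * κ e = cl e) ∧
      ∀ e, cl e < s := by
    have h3 : ∀ e, ((ρ e % s).toNat : ℤ) = ρ e % s := fun e =>
      Int.toNat_of_nonneg (Int.emod_nonneg _ hs'.ne')
    refine ⟨fun e => -(ρ e / s), fun e => (ρ e % s).toNat, fun e => ?_, fun e => ?_⟩
    · show ρ e + (s : ℤ) * (-(ρ e / s)) = ((ρ e % s).toNat : ℤ)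
      rw [h3, Int.emod_def]
      ring
    · have h4 := Int.emod_lt_of_pos (ρ e) hs'
      rw [← h3 e] at h4
      exact_mod_cast h4
  obtain ⟨xx, hxx⟩ : ∃ xx : E → ℝ, ∀ e, xx e = x e + κ e * P := ⟨_, fun _ => rfl⟩
  obtain ⟨yy, hyy⟩ : ∃ yy : E → ℝ, ∀ e, yy e = y e + κ e * P := ⟨_, fun _ => rfl⟩
  have hinc : ∀ e f, cl e = cl f → ¬ (xx e < xx f ∧ yy e < yy f) := by
    intro e f hef h
    rw [hxx, hxx, hyy, hyy] at h
    have h3 := hρ e f (κ e) (κ f) h
    rw [h0, h0] at h3
    omega
  have colx : ∀ e f, cl e = cl f → e ≠ f → inn e = inn f → xx e = xx f := by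
    intro e f hc hef hi
    obtain ⟨k, hk⟩ := hin e f hi
    have h3 := hin2 e f hef k hk
    have h4 := eq_zero_of_near (a := xx e - xx f) (b := yy e - yy f) hP (l := k + κ e - κ f)
      (by rw [hxx, hxx, hk]; push_cast; ring)
      (by
        have e1 : yy e - yy f - ((k + κ e - κ f : ℤ) : ℝ) * P = y e - y f - k * P := by
          rw [hyy, hyy]
          push_cast
          ring
        rw [e1]
        exact h3)
      (fun h => hinc f e hc.symm ⟨by linarith [h.1], by linarith [h.2]⟩)
      (fun h => hinc e f hc ⟨by linarith [h.1], by linarith [h.2]⟩)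
    linarith
  have coly : ∀ e f, cl e = cl f → e ≠ f → out e = out f → yy e = yy f := by
    intro e f hc hef hi
    obtain ⟨k, hk⟩ := hout e f hi
    have h3 := hout2 e f hef k hk
    have h4 := eq_zero_of_near (a := yy e - yy f) (b := xx e - xx f) hP (l := k + κ e - κ f)
      (by rw [hyy, hyy, hk]; push_cast; ring)
      (by
        have e1 : xx e - xx f - ((k + κ e - κ f : ℤ) : ℝ) * P = x e - x f - k * P := by
          rw [hxx, hxx]
          push_cast
          ring
        rw [e1]
        exact h3)
      (fun h => hinc f e hc.symm ⟨by linarith [h.2], by linarith [h.1]⟩)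
      (fun h => hinc e f hc ⟨by linarith [h.2], by linarith [h.1]⟩)
    linarith
  have noeq : ∀ e f, e ≠ f → xx e = xx f → yy e ≠ yy f := by
    intro e f hef h3 h4
    rw [hxx, hxx] at h3
    rw [hyy, hyy] at h4
    refine hne e f hef (κ f - κ e) ?_ ?_
    · push_cast
      linarith
    · push_cast
      linarith
  refine ⟨cl, h2, ?_, ?_⟩
  · intro e f hc
    refine ⟨κ f - κ e, ?_⟩
    have h3 := hinc e f hc
    have h4 := hinc f e hc.symm
    have e1 : x f + ((κ f - κ e : ℤ) : ℝ) * P = xx f - κ e * P := by
      rw [hxx]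
      push_cast
      ring
    have e2 : y f + ((κ f - κ e : ℤ) : ℝ) * P = yy f - κ e * P := by
      rw [hyy]
      push_cast
      ring
    have e3 : x e = xx e - κ e * P := by
      rw [hxx]
      ring
    have e4 : y e = yy e - κ e * P := by
      rw [hyy]
      ring
    rw [e1, e2, e3, e4]
    rcases lt_trichotomy (xx e) (xx f) with h | h | h
    · left
      have h5 : yy f ≤ yy e := by
        by_contra h6
        exact h3 ⟨h, not_le.1 h6⟩
      constructor <;> linarith
    · rcases le_total (yy f) (yy e) with h5 | h5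
      · left
        constructor <;> linarith
      · right
        constructor <;> linarith
    · right
      have h5 : yy e ≤ yy f := by
        by_contra h6
        exact h4 ⟨h, not_le.1 h6⟩
      constructor <;> linarith
  intro S c hS
  rcases S.eq_empty_or_nonempty with rfl | hSn
  · simp
  obtain ⟨a, haS, ha⟩ := Finset.exists_max_image S yy hSn
  let top : E → Prop := fun e => ∀ f ∈ S, xx f = xx e → yy f ≤ yy e
  let g : E → V := fun e => if top e then inn e else out e
  have ntop : ∀ e, ¬ top e → ∃ g ∈ S, xx g = xx e ∧ yy e < yy g := by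
    intro e te
    by_contra hno
    apply te
    intro g hg1 hg2
    by_contra hg3
    exact hno ⟨g, hg1, hg2, not_le.1 hg3⟩
  have hinj : Set.InjOn g (S : Set E) := by
    intro e he f hf hv
    by_contra hef
    have hc : cl e = cl f := (hS e he).trans (hS f hf).symm
    simp only [g] at hv
    by_cases te : top e <;> by_cases tf : top f
    · simp only [te, tf, if_true] at hv
      have h3 := colx e f hc hef hv
      exact noeq e f hef h3 (le_antisymm (tf e he h3) (te f hf h3.symm))
    · simp only [te, tf, if_true, if_false] at hv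
      exact hio _ _ hv
    · simp only [te, tf, if_true, if_false] at hv
      exact hio _ _ hv.symm
    · simp only [te, tf, if_false] at hv
      have h3 := coly e f hc hef hv
      rcases lt_trichotomy (xx e) (xx f) with h4 | h4 | h4
      · obtain ⟨g, hg1, hg2, hg3⟩ := ntop f tf
        exact hinc e g ((hS e he).trans (hS g hg1).symm) ⟨by linarith, by linarith⟩
      · exact noeq e f hef h4 h3
      · obtain ⟨g, hg1, hg2, hg3⟩ := ntop e te
        exact hinc f g ((hS f hf).trans (hS g hg1).symm) ⟨by linarith, by linarith⟩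
  have hcard : (S.image g).card ≤ ((Finset.univ : Finset V).erase (out a)).card := by
    apply Finset.card_le_card
    intro z hz
    obtain ⟨e, he, rfl⟩ := Finset.mem_image.1 hz
    rw [Finset.mem_erase]
    refine ⟨?_, Finset.mem_univ _⟩
    by_cases te : top e
    · simp only [g, te, if_true]
      exact hio _ _
    · simp only [g, te, if_false]
      intro h3
      obtain ⟨g, hg1, hg2, hg3⟩ := ntop e te
      have h4 := ha g hg1
      by_cases hea : e = a
      · subst hea
        linarith
      · have h5 := coly e a ((hS e he).trans (hS a haS).symm) hea h3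
        linarith
  rw [Finset.card_image_of_injOn hinj, Finset.card_erase_of_mem (Finset.mem_univ _),
    Finset.card_univ] at hcard
  exact hcard

end Pool.Agent.KCyl
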