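import Pool.Agent.Hhelper93.KCyl.Count

/-!
# Simple drawings between two concentric circles with monotone edges

The edges join the circle `|z| = 1` to the circle `|z| = R`, and each edge has exactly one point
on every circle `|z| = r`, `1 ≤ r ≤ R`.
-/

set_option autoImplicit false

namespace Pool.Agent.KCyl

open Set

/-- The point with modulus `r` and argument `a r`. -/
noncomputable def pt (a : ℝ → ℝ) (r : ℝ) : ℂ := (r : ℂ) * Complex.exp ((a r : ℂ) * Complex.I)

/-- The arc of all points `r e^{i a(r)}`, `1 ≤ r ≤ R`. -/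
def arc (R : ℝ) (a : ℝ → ℝ) : Set ℂ := pt a '' Icc 1 R

/-- `d` changes its sign at `r`: it is negative on one side of `r` and positive on the other, as
long as we are close to `r`. -/
def Changes (d : ℝ → ℝ) (r : ℝ) : Prop :=
  ∃ δ > 0, ((∀ s, r - δ < s → s < r → d s < 0) ∧ (∀ s, r < s → s < r + δ → 0 < d s)) ∨
    ((∀ s, r - δ < s → s < r → 0 < d s) ∧ (∀ s, r < s → s < r + δ → d s < 0))

/-- `G` is drawn between the circles `|z| = 1` and `|z| = R`: every edge `e` joins its end `inn e`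
on `|z| = 1` to its end `out e` on `|z| = R` along the arc of all `r e^{i ang e r}`, `1 ≤ r ≤ R`;
two edges have at most one common point, and they cross properly if this point is between the
circles. -/
structure Cyl {V : Type} (G : SimpleGraph V) (R : ℝ) (pos : V → ℂ) (inn out : Sym2 V → V)
    (ang : Sym2 V → ℝ → ℝ) : Prop where
  one_lt : 1 < R
  inj : Function.Injective pos
  ends : ∀ e ∈ G.edgeSet, e = s(inn e, out e)
  cont : ∀ e ∈ G.edgeSet, ContinuousOn (ang e) (Icc 1 R)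
  start : ∀ e ∈ G.edgeSet, pt (ang e) 1 = pos (inn e)
  stop : ∀ e ∈ G.edgeSet, pt (ang e) R = pos (out e)
  simple : ∀ e ∈ G.edgeSet, ∀ f ∈ G.edgeSet, e ≠ f →
    (arc R (ang e) ∩ arc R (ang f)).Subsingleton
  cross : ∀ e ∈ G.edgeSet, ∀ f ∈ G.edgeSet, e ≠ f → ∀ r ∈ Ioo 1 R, ∀ k : ℤ,
    ang e r - ang f r = 2 * Real.pi * k → Changes (fun s => ang e s - ang f s - 2 * Real.pi * k) r

theorem norm_pt (a : ℝ → ℝ) {r : ℝ} (hr : 0 < r) : ‖pt a r‖ = r := by
  unfold pt
  rw [norm_mul, Complex.norm_exp_ofReal_mul_I, mul_one, Complex.norm_real, Real.norm_eq_abs,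
    abs_of_pos hr]

theorem pt_eq_iff {a b : ℝ → ℝ} {r : ℝ} (hr : 0 < r) :
    pt a r = pt b r ↔ ∃ k : ℤ, a r - b r - 2 * Real.pi * k = 0 := by
  unfold pt
  have hr' : (r : ℂ) ≠ 0 := by exact_mod_cast hr.ne'
  rw [mul_right_inj' hr', Complex.exp_eq_exp_iff_exists_int]
  constructor
  · rintro ⟨k, hk⟩
    refine ⟨k, ?_⟩
    have h1 : (a r : ℂ) * Complex.I = ((b r + k * (2 * Real.pi) : ℝ) : ℂ) * Complex.I := by
      rw [hk]
      push_cast
      ring
    have h2 := mul_right_cancel₀ Complex.I_ne_zero h1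
    have h3 : a r = b r + k * (2 * Real.pi) := by exact_mod_cast h2
    rw [h3]
    ring
  · rintro ⟨k, hk⟩
    refine ⟨k, ?_⟩
    have h3 : a r = b r + k * (2 * Real.pi) := by linarith
    rw [h3]
    push_cast
    ring

theorem exists_zero {d : ℝ → ℝ} {u v : ℝ} (huv : u ≤ v) (hd : ContinuousOn d (Icc u v))
    (h : (d u < 0 ∧ 0 < d v) ∨ (0 < d u ∧ d v < 0)) : ∃ r ∈ Ioo u v, d r = 0 := by
  rcases h with h | h
  · obtain ⟨r, hr, h0⟩ := intermediate_value_Ioo huv hd ⟨h.1, h.2⟩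
    exact ⟨r, hr, h0⟩
  · obtain ⟨r, hr, h0⟩ := intermediate_value_Ioo' huv hd ⟨h.2, h.1⟩
    exact ⟨r, hr, h0⟩

theorem second_zero {d : ℝ → ℝ} {R r : ℝ} (hd : ContinuousOn d (Icc 1 R)) (hr : r ∈ Ioo 1 R)
    (hc : Changes d r) (h : (d 1 < 0 ∧ d R < 0) ∨ (0 < d 1 ∧ 0 < d R)) :
    ∃ r' ∈ Ioo 1 R, r' ≠ r ∧ d r' = 0 := by
  obtain ⟨δ, hδ, hc⟩ := hc
  have hr1 := hr.1
  have hr2 := hr.2
  obtain ⟨s, hs1, hs2, hs3⟩ : ∃ s, 1 < s ∧ s < r ∧ r - δ < s := by
    refine ⟨max ((1 + r) / 2) (r - δ / 2), ?_, ?_, ?_⟩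
    · exact lt_of_lt_of_le (by linarith) (le_max_left _ _)
    · exact max_lt (by linarith) (by linarith)
    · exact lt_of_lt_of_le (by linarith) (le_max_right _ _)
  obtain ⟨u, hu1, hu2, hu3⟩ : ∃ u, r < u ∧ u < R ∧ u < r + δ := by
    refine ⟨min ((r + R) / 2) (r + δ / 2), ?_, ?_, ?_⟩
    · exact lt_min (by linarith) (by linarith)
    · exact lt_of_le_of_lt (min_le_left _ _) (by linarith)
    · exact lt_of_le_of_lt (min_le_right _ _) (by linarith)
  have c1 : ContinuousOn d (Icc 1 s) := hd.mono (Icc_subset_Icc le_rfl (by linarith))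
  have c2 : ContinuousOn d (Icc u R) := hd.mono (Icc_subset_Icc (by linarith) le_rfl)
  have left : (d 1 < 0 ∧ 0 < d s) ∨ (0 < d 1 ∧ d s < 0) →
      ∃ r' ∈ Ioo 1 R, r' ≠ r ∧ d r' = 0 := by
    intro h'
    obtain ⟨z, hz, h0⟩ := exists_zero hs1.le c1 h'
    exact ⟨z, ⟨hz.1, by linarith [hz.2]⟩, ne_of_lt (by linarith [hz.2]), h0⟩
  have right : (d u < 0 ∧ 0 < d R) ∨ (0 < d u ∧ d R < 0) →
      ∃ r' ∈ Ioo 1 R, r' ≠ r ∧ d r' = 0 := by
    intro h'
    obtain ⟨z, hz, h0⟩ := exists_zero hu2.le c2 h'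
    exact ⟨z, ⟨by linarith [hz.1], hz.2⟩, ne_of_gt (by linarith [hz.1]), h0⟩
  rcases hc with hc | hc <;> rcases h with h | h
  · exact right (Or.inr ⟨hc.2 u hu1 hu3, h.2⟩)
  · exact left (Or.inr ⟨h.1, hc.1 s hs3 hs2⟩)
  · exact left (Or.inl ⟨h.1, hc.1 s hs3 hs2⟩)
  · exact right (Or.inl ⟨hc.2 u hu1 hu3, h.2⟩)

section

variable {V : Type} {G : SimpleGraph V} {R : ℝ} {pos : V → ℂ} {inn out : Sym2 V → V}
  {ang : Sym2 V → ℝ → ℝ}

theorem Cyl.contd (D : Cyl G R pos inn out ang) {e f : Sym2 V} (he : e ∈ G.edgeSet)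
    (hf : f ∈ G.edgeSet) (k : ℤ) :
    ContinuousOn (fun s => ang e s - ang f s - 2 * Real.pi * k) (Icc 1 R) :=
  ((D.cont e he).sub (D.cont f hf)).sub continuousOn_const

/-- Two zeros of the lifted differences have the same modulus. -/
theorem Cyl.unique (D : Cyl G R pos inn out ang) {e f : Sym2 V} (he : e ∈ G.edgeSet)
    (hf : f ∈ G.edgeSet) (hef : e ≠ f) {r r' : ℝ} (hr : r ∈ Icc 1 R) (hr' : r' ∈ Icc 1 R)
    {k k' : ℤ} (h : ang e r - ang f r - 2 * Real.pi * k = 0)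
    (h' : ang e r' - ang f r' - 2 * Real.pi * k' = 0) : r = r' := by
  have p : 0 < r := by linarith [hr.1]
  have p' : 0 < r' := by linarith [hr'.1]
  have h1 : pt (ang e) r = pt (ang f) r := (pt_eq_iff p).2 ⟨k, h⟩
  have h2 : pt (ang e) r' = pt (ang f) r' := (pt_eq_iff p').2 ⟨k', h'⟩
  have h3 : pt (ang e) r = pt (ang e) r' :=
    D.simple e he f hf hef ⟨⟨r, hr, rfl⟩, ⟨r, hr, h1.symm⟩⟩ ⟨⟨r', hr', rfl⟩, ⟨r', hr', h2.symm⟩⟩
  have h4 := congrArg norm h3
  rwa [norm_pt _ p, norm_pt _ p'] at h4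

theorem Cyl.disj (D : Cyl G R pos inn out ang) {e f : Sym2 V} (he : e ∈ G.edgeSet)
    (hf : f ∈ G.edgeSet) (hef : e ≠ f)
    (h : ∀ k : ℤ, (ang e 1 - ang f 1 - 2 * Real.pi * k < 0 ∧ ang e R - ang f R - 2 * Real.pi * k < 0) ∨
      (0 < ang e 1 - ang f 1 - 2 * Real.pi * k ∧ 0 < ang e R - ang f R - 2 * Real.pi * k)) :
    Disjoint (arc R (ang e)) (arc R (ang f)) := by
  rw [Set.disjoint_left]
  rintro z ⟨r, hr, rfl⟩ ⟨r', hr', h1⟩
  have p : 0 < r := by linarith [hr.1]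
  have p' : 0 < r' := by linarith [hr'.1]
  have h2 := congrArg norm h1
  rw [norm_pt _ p, norm_pt _ p'] at h2
  subst h2
  obtain ⟨k, hk⟩ := (pt_eq_iff p).1 h1.symm
  have hk' := h k
  have hr1 : r' ≠ 1 := by
    rintro rfl
    rcases hk' with h3 | h3
    · linarith [h3.1]
    · linarith [h3.1]
  have hr2 : r' ≠ R := by
    rintro rfl
    rcases hk' with h3 | h3
    · linarith [h3.2]
    · linarith [h3.2]
  have hr3 : r' ∈ Ioo 1 R := ⟨lt_of_le_of_ne hr.1 hr1.symm, lt_of_le_of_ne hr.2 hr2⟩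
  have hc := D.cross e he f hf hef r' hr3 k (by linarith)
  obtain ⟨z, hz, hzr, h0⟩ := second_zero (D.contd he hf k) hr3 hc hk'
  exact hzr (D.unique he hf hef (Ioo_subset_Icc_self hz) hr h0 hk)

/-- If the difference vanishes at `1` then it stays in one period. -/
theorem Cyl.near1 (D : Cyl G R pos inn out ang) {e f : Sym2 V} (he : e ∈ G.edgeSet)
    (hf : f ∈ G.edgeSet) (hef : e ≠ f) (k : ℤ) (h : ang e 1 - ang f 1 - 2 * Real.pi * k = 0) :
    |ang e R - ang f R - 2 * Real.pi * k| < 2 * Real.pi := by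
  have hR := D.one_lt
  have h1m : (1 : ℝ) ∈ Icc 1 R := ⟨le_rfl, hR.le⟩
  have hRm : R ∈ Icc 1 R := ⟨hR.le, le_rfl⟩
  have hpi := Real.two_pi_pos
  rw [abs_lt]
  constructor
  · by_contra hcon
    have hcon' := not_lt.1 hcon
    rcases eq_or_lt_of_le hcon' with h2 | h2
    · have := D.unique he hf hef hRm h1m (k := k - 1) (k' := k)
        (by push_cast; linarith) h
      linarith
    · obtain ⟨z, hz, h0⟩ := exists_zero hR.le (D.contd he hf (k - 1))
        (Or.inr ⟨by push_cast; linarith, by push_cast; linarith⟩)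
      have := D.unique he hf hef (Ioo_subset_Icc_self hz) h1m h0 h
      linarith [hz.1]
  · by_contra hcon
    have hcon' := not_lt.1 hcon
    rcases eq_or_lt_of_le hcon' with h2 | h2
    · have := D.unique he hf hef hRm h1m (k := k + 1) (k' := k)
        (by push_cast; linarith) h
      linarith
    · obtain ⟨z, hz, h0⟩ := exists_zero hR.le (D.contd he hf (k + 1))
        (Or.inl ⟨by push_cast; linarith, by push_cast; linarith⟩)
      have := D.unique he hf hef (Ioo_subset_Icc_self hz) h1m h0 h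
      linarith [hz.1]

/-- If the difference vanishes at `R` then it stays in one period. -/
theorem Cyl.nearR (D : Cyl G R pos inn out ang) {e f : Sym2 V} (he : e ∈ G.edgeSet)
    (hf : f ∈ G.edgeSet) (hef : e ≠ f) (k : ℤ) (h : ang e R - ang f R - 2 * Real.pi * k = 0) :
    |ang e 1 - ang f 1 - 2 * Real.pi * k| < 2 * Real.pi := by
  have hR := D.one_lt
  have h1m : (1 : ℝ) ∈ Icc 1 R := ⟨le_rfl, hR.le⟩
  have hRm : R ∈ Icc 1 R := ⟨hR.le, le_rfl⟩
  have hpi := Real.two_pi_pos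
  rw [abs_lt]
  constructor
  · by_contra hcon
    have hcon' := not_lt.1 hcon
    rcases eq_or_lt_of_le hcon' with h2 | h2
    · have := D.unique he hf hef h1m hRm (k := k - 1) (k' := k)
        (by push_cast; linarith) h
      linarith
    · obtain ⟨z, hz, h0⟩ := exists_zero hR.le (D.contd he hf (k - 1))
        (Or.inl ⟨by push_cast; linarith, by push_cast; linarith⟩)
      have := D.unique he hf hef (Ioo_subset_Icc_self hz) hRm h0 h
      linarith [hz.2]
  · by_contra hcon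
    have hcon' := not_lt.1 hcon
    rcases eq_or_lt_of_le hcon' with h2 | h2
    · have := D.unique he hf hef h1m hRm (k := k + 1) (k' := k)
        (by push_cast; linarith) h
      linarith
    · obtain ⟨z, hz, h0⟩ := exists_zero hR.le (D.contd he hf (k + 1))
        (Or.inr ⟨by push_cast; linarith, by push_cast; linarith⟩)
      have := D.unique he hf hef (Ioo_subset_Icc_self hz) hRm h0 h
      linarith [hz.2]

end

end Pool.Agent.KCyl
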