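import Pool.Agent.Hhelper93.KCyl.Draw

/-!
# At most `(t - 1) (n - 1)` edges
-/

set_option autoImplicit false

namespace Pool.Agent.KCyl

open Set

variable {V : Type} {G : SimpleGraph V} {R : ℝ} {pos : V → ℂ} {inn out : Sym2 V → V}
  {ang : Sym2 V → ℝ → ℝ}

/-- Lifts of two members of a closed chain of one period are comparable. -/
theorem Per.comp {E : Type*} {x y : E → ℝ} {P : ℝ} {m : ℕ} {C : ℕ → E × ℤ}
    (h : Per x y P m 1 C) (hP : 0 < P) {i j : ℕ} (hij : i < j) (hjm : j < m) (k : ℤ) :
    (x (C i).1 - x (C j).1 - P * k < 0 ∧ y (C i).1 - y (C j).1 - P * k < 0) ∨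
      (0 < x (C i).1 - x (C j).1 - P * k ∧ 0 < y (C i).1 - y (C j).1 - P * k) := by
  have hx1 : lft x P (C i) < lft x P (C j) := h.monoX hij
  have hy1 : lft y P (C i) < lft y P (C j) := h.monoY hij
  have hx2 : lft x P (C j) < lft x P (C (i + m)) := h.monoX (by omega)
  have hy2 : lft y P (C j) < lft y P (C (i + m)) := h.monoY (by omega)
  rw [h.per, lft_shf] at hx2 hy2
  unfold lft at hx1 hy1 hx2 hy2
  push_cast at hx2 hy2
  rcases le_or_gt ((C j).2 - (C i).2) k with hk | hk
  · left
    have h1 : ((C j).2 : ℝ) - (C i).2 ≤ k := by exact_mod_cast hk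
    have h2 := mul_le_mul_of_nonneg_right h1 hP.le
    constructor <;> nlinarith
  · right
    have h1 : (k : ℝ) ≤ (C j).2 - (C i).2 - 1 := by
      exact_mod_cast (show k ≤ (C j).2 - (C i).2 - 1 by omega)
    have h2 := mul_le_mul_of_nonneg_right h1 hP.le
    constructor <;> nlinarith

/-- If two lifts are not comparable then the arcs meet. -/
theorem Cyl.meet (D : Cyl G R pos inn out ang) {e f : Sym2 V} (he : e ∈ G.edgeSet)
    (hf : f ∈ G.edgeSet) (k : ℤ)
    (h : (ang e 1 ≤ ang f 1 + k * (2 * Real.pi) ∧ ang f R + k * (2 * Real.pi) ≤ ang e R) ∨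
      (ang f 1 + k * (2 * Real.pi) ≤ ang e 1 ∧ ang e R ≤ ang f R + k * (2 * Real.pi))) :
    ¬ Disjoint (arc R (ang e)) (arc R (ang f)) := by
  have hR := D.one_lt
  obtain ⟨r, hr, h0⟩ : ∃ r ∈ Icc 1 R, ang e r - ang f r - 2 * Real.pi * k = 0 := by
    rcases h with h | h
    · obtain ⟨r, hr, h0⟩ := intermediate_value_Icc hR.le (D.contd he hf k)
        (show (0 : ℝ) ∈ Icc _ _ from ⟨by linarith [h.1], by linarith [h.2]⟩)
      exact ⟨r, hr, h0⟩
    · obtain ⟨r, hr, h0⟩ := intermediate_value_Icc' hR.le (D.contd he hf k)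
        (show (0 : ℝ) ∈ Icc _ _ from ⟨by linarith [h.2], by linarith [h.1]⟩)
      exact ⟨r, hr, h0⟩
  have p : 0 < r := by linarith [hr.1]
  have h1 : pt (ang e) r = pt (ang f) r := (pt_eq_iff p).2 ⟨k, h0⟩
  rw [Set.not_disjoint_iff]
  exact ⟨pt (ang e) r, ⟨r, hr, rfl⟩, ⟨r, hr, h1.symm⟩⟩

theorem Cyl.bound [Fintype V] (D : Cyl G R pos inn out ang) (t : ℕ)
    (ht : ∀ T : Finset (Sym2 V), (T : Set (Sym2 V)) ⊆ G.edgeSet → T.card = t →
      ∃ e ∈ T, ∃ f ∈ T, e ≠ f ∧ ¬ Disjoint (arc R (ang e)) (arc R (ang f))) :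
    ∃ c : Sym2 V → ℕ, (∀ e ∈ G.edgeSet, c e < t - 1) ∧
      (∀ e ∈ G.edgeSet, ∀ f ∈ G.edgeSet, c e = c f →
        ¬ Disjoint (arc R (ang e)) (arc R (ang f))) ∧
      ∀ i, {e ∈ G.edgeSet | c e = i}.ncard ≤ Fintype.card V - 1 := by
  classical
  have hpi := Real.two_pi_pos
  have hR := D.one_lt
  rcases Nat.eq_zero_or_pos t with rfl | htpos
  · obtain ⟨e, he, -⟩ := ht ∅ (by simp) (by simp)
    simp at he
  have hfin : Fintype G.edgeSet := Fintype.ofFinite _
  let x : G.edgeSet → ℝ := fun e => ang e.1 1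
  let y : G.edgeSet → ℝ := fun e => ang e.1 R
  have H1 : ∀ m C, Per x y (2 * Real.pi) m 1 C → 0 < m → m ≤ t - 1 := by
    intro m C h _
    by_contra hcon
    have htm : t ≤ m := by omega
    have hne : ∀ i j, i < j → j < m → (C i).1 ≠ (C j).1 := by
      intro i j hij hjm he
      have h1 := h.comp hpi hij hjm 0
      rw [he] at h1
      rcases h1 with h1 | h1
      · have := h1.1
        simp at this
      · have := h1.1
        simp at this
    have hdis : ∀ i j, i < j → j < m →
        Disjoint (arc R (ang (C i).1.1)) (arc R (ang (C j).1.1)) := by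
      intro i j hij hjm
      exact D.disj (C i).1.2 (C j).1.2 (fun h' => hne i j hij hjm (Subtype.ext h'))
        (fun k => h.comp hpi hij hjm k)
    have hinj : Set.InjOn (fun i : ℕ => (C i).1.1) (Finset.range t : Set ℕ) := by
      intro i hi j hj h'
      simp only [Finset.coe_range, Set.mem_Iio] at hi hj
      rcases lt_trichotomy i j with h1 | h1 | h1
      · exact (hne i j h1 (by omega) (Subtype.ext h')).elim
      · exact h1
      · exact (hne j i h1 (by omega) (Subtype.ext h'.symm)).elim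
    obtain ⟨e, he, f, hf, hef, hnd⟩ := ht ((Finset.range t).image fun i : ℕ => (C i).1.1)
      (by
        intro z hz
        simp only [Finset.coe_image, Set.mem_image] at hz
        obtain ⟨i, -, rfl⟩ := hz
        exact (C i).1.2)
      (by rw [Finset.card_image_of_injOn hinj, Finset.card_range])
    obtain ⟨i, hi, rfl⟩ := Finset.mem_image.1 he
    obtain ⟨j, hj, rfl⟩ := Finset.mem_image.1 hf
    rw [Finset.mem_range] at hi hj
    rcases lt_trichotomy i j with h1 | h1 | h1
    · exact hnd (hdis i j h1 (by omega))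
    · subst h1
      exact hef rfl
    · exact hnd (hdis j i h1 (by omega)).symm
  have hmod1 : ∀ e : G.edgeSet, ‖pos (inn e.1)‖ = 1 := by
    intro e
    rw [← D.start e.1 e.2, norm_pt _ one_pos]
  have hmodR : ∀ e : G.edgeSet, ‖pos (out e.1)‖ = R := by
    intro e
    rw [← D.stop e.1 e.2, norm_pt _ (by linarith)]
  have hpos : (0 : ℝ) < R := by linarith
  obtain ⟨cl, hc1, hc2, hc3⟩ := classes (E := G.edgeSet) (V := V) (x := x) (y := y) hpi (t - 1) H1
    (fun e => inn e.1) (fun e => out e.1)
    (by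
      intro e f h
      have h1 := hmod1 e
      have h2 := hmodR f
      rw [h] at h1
      linarith)
    (by
      intro e f h
      have h1 : pt (ang e.1) 1 = pt (ang f.1) 1 := by
        rw [D.start e.1 e.2, D.start f.1 f.2, h]
      obtain ⟨k, hk⟩ := (pt_eq_iff one_pos).1 h1
      exact ⟨k, by simp only [x]; linarith⟩)
    (by
      intro e f hef k hk
      have h1 := D.near1 e.2 f.2 (fun h' => hef (Subtype.ext h')) k
        (by simp only [x] at hk; linarith)
      simp only [y]
      rw [mul_comm (k : ℝ)]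
      exact h1)
    (by
      intro e f h
      have h1 : pt (ang e.1) R = pt (ang f.1) R := by
        rw [D.stop e.1 e.2, D.stop f.1 f.2, h]
      obtain ⟨k, hk⟩ := (pt_eq_iff hpos).1 h1
      exact ⟨k, by simp only [y]; linarith⟩)
    (by
      intro e f hef k hk
      have h1 := D.nearR e.2 f.2 (fun h' => hef (Subtype.ext h')) k
        (by simp only [y] at hk; linarith)
      simp only [x]
      rw [mul_comm (k : ℝ)]
      exact h1)
    (by
      intro e f hef k hk hk'
      simp only [x] at hk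
      simp only [y] at hk'
      have := D.unique e.2 f.2 (fun h' => hef (Subtype.ext h')) (r := 1) (r' := R)
        ⟨le_rfl, hR.le⟩ ⟨hR.le, le_rfl⟩ (k := k) (k' := k) (by linarith) (by linarith)
      linarith)
  refine ⟨fun e => if h : e ∈ G.edgeSet then cl ⟨e, h⟩ else 0, ?_, ?_, ?_⟩
  · intro e he
    simp only [he, dif_pos]
    exact hc1 _
  · intro e he f hf hef
    simp only [he, hf, dif_pos] at hef
    obtain ⟨k, hk⟩ := hc2 _ _ hef
    exact D.meet he hf k hk
  · intro i
    have h1 := hc3 (Finset.univ.filter fun e : G.edgeSet => cl e = i) i (by simp)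
    have h2 : {e ∈ G.edgeSet | (if h : e ∈ G.edgeSet then cl ⟨e, h⟩ else 0) = i} =
        (Subtype.val '' ((Finset.univ.filter fun e : G.edgeSet => cl e = i : Finset G.edgeSet) :
          Set G.edgeSet)) := by
      ext e
      simp only [Set.mem_ofPred_eq, Set.mem_image, Finset.coe_filter, Finset.mem_univ, true_and]
      constructor
      · rintro ⟨he, h⟩
        rw [dif_pos he] at h
        exact ⟨⟨e, he⟩, h, rfl⟩
      · rintro ⟨⟨e', he'⟩, h, rfl⟩
        exact ⟨he', by rw [dif_pos he']; exact h⟩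
    rw [h2, Set.ncard_image_of_injective _ Subtype.val_injective, Set.ncard_coe_finset]
    exact h1

theorem ncard_le_of_colouring {α : Type*} {E : Set α} (hE : E.Finite) (c : α → ℕ) (s b : ℕ)
    (h1 : ∀ e ∈ E, c e < s) (h2 : ∀ i, {e ∈ E | c e = i}.ncard ≤ b) : E.ncard ≤ s * b := by
  classical
  have h3 : E.ncard = hE.toFinset.card := Set.ncard_eq_toFinset_card E hE
  rw [h3]
  have h4 := Finset.card_le_mul_card_image_of_maps_to (s := hE.toFinset) (t := Finset.range s)
    (f := c) (fun e he => by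
      rw [Finset.mem_range]
      exact h1 e (by simpa using he)) b (fun i _ => by
      have h5 : (hE.toFinset.filter fun e => c e = i).card = {e ∈ E | c e = i}.ncard := by
        rw [← Set.ncard_coe_finset]
        congr 1
        ext e
        simp
      rw [h5]
      exact h2 i)
  rw [Finset.card_range, mul_comm] at h4
  exact h4

end Pool.Agent.KCyl
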