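import Mathlib

/-!
# Splitting a periodic increasing sequence in the plane

`X`, `Y` are strictly increasing with `X (i + m) = X i + K P`, `Y (i + m) = Y i + K P`.  Then there
are `j ≤ i` such that the points `j + 1, ..., i` fit in one period and the points `i + 1, ..., j + m`
fit in `K - 1` periods.
-/

set_option autoImplicit false

namespace Pool.Agent.KCyl

theorem no_turn {X Y : ℕ → ℝ} {P : ℝ} {m K : ℕ} (hK : 0 < K) (hX : StrictMono X)
    (hY : StrictMono Y) (pX : X m = X 0 + K * P) (pY : Y m = Y 0 + K * P) (φ : ℕ → ℕ)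
    (h : ∀ j, X (j + 1) + P ≤ X (φ j) ∧ Y (φ j) ≤ Y j + P) : False := by
  have h1 : ∀ k : ℕ, X 0 + k * P ≤ X (φ^[k] 0) ∧ Y (φ^[k] 0) ≤ Y 0 + k * P := by
    intro k
    induction k with
    | zero => simp
    | succ k ih =>
      rw [Function.iterate_succ_apply']
      have h2 := h (φ^[k] 0)
      have h3 : X (φ^[k] 0) < X (φ^[k] 0 + 1) := hX (Nat.lt_succ_self _)
      push_cast
      constructor <;> nlinarith [h2.1, h2.2, ih.1, ih.2]
  obtain ⟨k, rfl⟩ : ∃ k, K = k + 1 := ⟨K - 1, by omega⟩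
  have h2 := h1 k
  have h3 := h (φ^[k] 0)
  have h4 : X (φ^[k] 0) < X (φ^[k] 0 + 1) := hX (Nat.lt_succ_self _)
  have h5 := (h1 (k + 1)).2
  rw [Function.iterate_succ_apply'] at h5
  push_cast at pX pY h5
  have h6 : X m < X (φ (φ^[k] 0)) := by nlinarith [h2.1, h3.1]
  have h7 : Y (φ (φ^[k] 0)) ≤ Y m := by rw [pY]; exact h5
  have h8 := hX.lt_iff_lt.1 h6
  have h9 := hY.le_iff_le.1 h7
  omega

theorem exists_split {X Y : ℕ → ℝ} {P : ℝ} (hP : 0 < P) {m K : ℕ} (hK : 0 < K)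
    (hX : StrictMono X) (hY : StrictMono Y)
    (pX : ∀ i, X (i + m) = X i + K * P) (pY : ∀ i, Y (i + m) = Y i + K * P) :
    ∃ j i, j ≤ i ∧ i ≤ j + m ∧ (X i < X (j + 1) + P ∧ Y i < Y (j + 1) + P) ∧
      (X j + P < X (i + 1) ∧ Y j + P < Y (i + 1)) := by
  classical
  by_contra hcon
  have hex : ∀ j, ¬ (X (j + 1 + m) < X (j + 1) + P ∧ Y (j + 1 + m) < Y (j + 1) + P) := by
    intro j h
    have h1 := h.1
    rw [pX] at h1
    have h2 : (1 : ℝ) ≤ K := by exact_mod_cast hK
    nlinarith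
  have hex' : ∀ j, ∃ i, ¬ (X i < X (j + 1) + P ∧ Y i < Y (j + 1) + P) := fun j => ⟨_, hex j⟩
  obtain ⟨φ, hφ, hφm, hφ2⟩ : ∃ φ : ℕ → ℕ,
      (∀ j, ¬ (X (φ j) < X (j + 1) + P ∧ Y (φ j) < Y (j + 1) + P)) ∧
      (∀ j i, i < φ j → (X i < X (j + 1) + P ∧ Y i < Y (j + 1) + P)) ∧
      (∀ j, φ j ≤ j + 1 + m) :=
    ⟨fun j => Nat.find (hex' j), fun j => Nat.find_spec (hex' j),
      fun j i hi => not_not.1 (Nat.find_min (hex' j) hi), fun j => Nat.find_min' (hex' j) (hex j)⟩
  have hφ1 : ∀ j, j + 1 < φ j := by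
    intro j
    by_contra h
    push Not at h
    apply hφ j
    have h1 := hX.monotone h
    have h2 := hY.monotone h
    constructor <;> linarith
  have key : ∀ j, ¬ (X j + P < X (φ j) ∧ Y j + P < Y (φ j)) := by
    intro j h
    have h1 := hφ1 j
    have h2 := hφ2 j
    obtain ⟨i, hi⟩ : ∃ i, φ j = i + 1 := ⟨φ j - 1, by omega⟩
    rw [hi] at h
    exact hcon ⟨j, i, by omega, by omega, hφm j i (by omega), h⟩
  have hmono : ∀ j, φ j ≤ φ (j + 1) := by
    intro j
    by_contra h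
    push Not at h
    have h1 := hφm j _ h
    apply hφ (j + 1)
    have h2 : X (j + 1) < X (j + 1 + 1) := hX (Nat.lt_succ_self _)
    have h3 : Y (j + 1) < Y (j + 1 + 1) := hY (Nat.lt_succ_self _)
    constructor <;> linarith [h1.1, h1.2]
  have ty : ∀ j, (X (j + 1) + P ≤ X (φ j) ∧ Y (φ j) ≤ Y j + P) ∨
      (Y (j + 1) + P ≤ Y (φ j) ∧ X (φ j) ≤ X j + P) := by
    intro j
    have h1 := hφ j
    have h2 := key j
    have h3 : X j < X (j + 1) := hX (Nat.lt_succ_self _)
    have h4 : Y j < Y (j + 1) := hY (Nat.lt_succ_self _)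
    by_cases h5 : X (φ j) < X (j + 1) + P
    · have h6 : Y (j + 1) + P ≤ Y (φ j) := by
        by_contra h
        exact h1 ⟨h5, not_le.1 h⟩
      right
      refine ⟨h6, ?_⟩
      by_contra h
      exact h2 ⟨not_le.1 h, by linarith⟩
    · have h6 := not_lt.1 h5
      left
      refine ⟨h6, ?_⟩
      by_contra h
      exact h2 ⟨by linarith, not_le.1 h⟩
  have aux : ∀ U W : ℕ → ℝ, StrictMono U → StrictMono W → ∀ j,
      (U (j + 1) + P ≤ U (φ j) ∧ W (φ j) ≤ W j + P) →
      (W (j + 1 + 1) + P ≤ W (φ (j + 1)) ∧ U (φ (j + 1)) ≤ U (j + 1) + P) → False := by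
    intro U W hU hW j h1 h2
    have h3 : U (φ (j + 1)) ≤ U (φ j) := by linarith [h1.1, h2.2]
    have h4 := hU.le_iff_le.1 h3
    have h5 : φ j = φ (j + 1) := le_antisymm (hmono j) h4
    have h6 : W j < W (j + 1) := hW (Nat.lt_succ_self _)
    have h7 : W (j + 1) < W (j + 1 + 1) := hW (Nat.lt_succ_self _)
    rw [← h5] at h2
    linarith [h1.2, h2.1]
  have p0X : X m = X 0 + K * P := by simpa using pX 0
  have p0Y : Y m = Y 0 + K * P := by simpa using pY 0
  rcases ty 0 with h0 | h0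
  · refine no_turn hK hX hY p0X p0Y φ (fun j => ?_)
    induction j with
    | zero => exact h0
    | succ j ih =>
      rcases ty (j + 1) with h | h
      · exact h
      · exact (aux X Y hX hY j ih h).elim
  · refine no_turn hK hY hX p0Y p0X φ (fun j => ?_)
    induction j with
    | zero => exact h0
    | succ j ih =>
      rcases ty (j + 1) with h | h
      · exact (aux Y X hY hX j ih h).elim
      · exact h

end Pool.Agent.KCyl
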